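import Pool.Agent.H.MP_09f213_an.Final

set_option autoImplicit false

open MeasureTheory Set Filter Topology Metric
open scoped ContDiff ENNReal NNReal

namespace Pool.Agent.H.MP_09f213_an.h81

open Pool.Agent.H.MP_09f213_an

variable {Ω : Set ℂ} {f fx fy : ℂ → ℂ}

/-- the local hypotheses -/
structure LHyp (Ω : Set ℂ) (f fx fy : ℂ → ℂ) : Prop where
  op : IsOpen Ω
  li : LocallyIntegrableOn f Ω
  mx : ∀ K : Set ℂ, IsCompact K → K ⊆ Ω → MemLp fx 2 (volume.restrict K)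
  my : ∀ K : Set ℂ, IsCompact K → K ⊆ Ω → MemLp fy 2 (volume.restrict K)
  weak : ∀ φ : ℂ → ℂ, ContDiff ℝ ((⊤ : ℕ∞) : WithTop ℕ∞) φ → HasCompactSupport φ →
      tsupport φ ⊆ Ω →
      ((∫ z, f z * fderiv ℝ φ z 1) = - ∫ z, fx z * φ z) ∧
      ((∫ z, f z * fderiv ℝ φ z Complex.I) = - ∫ z, fy z * φ z)
  hopf : ∀ φ : ℂ → ℂ, ContDiff ℝ ((⊤ : ℕ∞) : WithTop ℕ∞) φ → HasCompactSupport φ →
      tsupport φ ⊆ Ω →
      ∫ z, (wz fx fy z * (starRingEnd ℂ) (wzb fx fy z)) * dzb φ z = 0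
  jac : ∀ᵐ z ∂(volume.restrict Ω), ‖wzb fx fy z‖ ≤ ‖wz fx fy z‖

theorem LHyp.toHyp (H : LHyp Ω f fx fy) {z0 : ℂ} {r : ℝ} (h : closedBall z0 r ⊆ Ω) :
    Hyp (ball z0 r) f fx fy := by
  have hb : ball z0 r ⊆ Ω := ball_subset_closedBall.trans h
  refine ⟨isOpen_ball, H.li.mono_set hb, ?_, ?_, ?_, ?_, ?_⟩
  · exact (H.mx _ (isCompact_closedBall z0 r) h).mono_measure
      (Measure.restrict_mono ball_subset_closedBall le_rfl)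
  · exact (H.my _ (isCompact_closedBall z0 r) h).mono_measure
      (Measure.restrict_mono ball_subset_closedBall le_rfl)
  · intro φ h1 h2 h3
    exact H.weak φ h1 h2 (h3.trans hb)
  · intro φ h1 h2 h3
    exact H.hopf φ h1 h2 (h3.trans hb)
  · exact ae_mono (Measure.restrict_mono hb le_rfl) H.jac

theorem exists_closedBall (hΩ : IsOpen Ω) {z0 : ℂ} (h0 : z0 ∈ Ω) :
    ∃ r : ℝ, 0 < r ∧ closedBall z0 r ⊆ Ω := by
  obtain ⟨ε, hε, h⟩ := Metric.isOpen_iff.1 hΩ z0 h0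
  exact ⟨ε / 2, by positivity, (closedBall_subset_ball (by linarith)).trans h⟩

/-- small oscillation from a local continuous representative -/
theorem osc_of_rep {D : ℂ → ℝ} {g : ℂ → ℝ} {z0 : ℂ} {r : ℝ} (hr : 0 < r) (hg : ContinuousAt g z0)
    (h : ∀ᵐ z ∂(volume.restrict (Metric.ball z0 r)), g z = D z) {ε : ℝ} (hε : 0 < ε) :
    ∃ r : ℝ, 0 < r ∧ ∃ κ : ℝ, ∀ᵐ z ∂(volume.restrict (Metric.ball z0 r)), |D z - κ| ≤ ε := by
  obtain ⟨δ, hδ, hg'⟩ := Metric.continuousAt_iff.1 hg ε hε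
  refine ⟨min δ r, lt_min hδ hr, g z0, ?_⟩
  filter_upwards [ae_mono (Measure.restrict_mono (ball_subset_ball (min_le_right _ _)) le_rfl) h,
    ae_restrict_mem measurableSet_ball] with z h1 h2
  rw [← h1, ← Real.dist_eq]
  exact (hg' (mem_ball.1 (ball_subset_ball (min_le_left _ _) h2))).le

theorem rep_Dn (H : LHyp Ω f fx fy) : ∃ g : ℂ → ℝ, ContinuousOn g Ω ∧
    ∀ᵐ z ∂(volume.restrict Ω), g z = Dn fx fy z := by
  refine cont_rep H.op fun z0 hz0 ε hε => ?_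
  obtain ⟨r, hr, hsub⟩ := exists_closedBall H.op hz0
  obtain ⟨g, hg, hge⟩ := main_thm (H.toHyp hsub)
  exact osc_of_rep hr (hg.continuousAt (ball_mem_nhds z0 hr)) hge hε

theorem rep_hopf (H : LHyp Ω f fx fy) : ∃ g : ℂ → ℝ, ContinuousOn g Ω ∧
    ∀ᵐ z ∂(volume.restrict Ω), g z = ‖wz fx fy z‖ * ‖wzb fx fy z‖ := by
  refine cont_rep H.op fun z0 hz0 ε hε => ?_
  obtain ⟨r, hr, hsub⟩ := exists_closedBall H.op hz0
  have HB := H.toHyp hsub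
  obtain ⟨r', hr', hsub', G, hG, hGe⟩ := weyl_local HB.op HB.li_hopf HB.hopf (mem_ball_self hr)
  refine osc_of_rep (g := fun z => ‖G z‖) hr'
    (hG.continuousOn.continuousAt (ball_mem_nhds z0 hr')).norm ?_ hε
  filter_upwards [hGe] with z hz
  rw [← hz, norm_mul, Complex.norm_conj]

theorem rep_all (H : LHyp Ω f fx fy) :
    ∃ g p q : ℂ → ℝ, ContinuousOn g Ω ∧ ContinuousOn p Ω ∧ ContinuousOn q Ω ∧
      ∀ᵐ z ∂(volume.restrict Ω), g z = Real.sqrt (2 * (‖wz fx fy z‖ ^ 2 + ‖wzb fx fy z‖ ^ 2)) ∧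
        p z = ‖wz fx fy z‖ ∧ q z = ‖wzb fx fy z‖ := by
  obtain ⟨g, hg, hge⟩ := rep_Dn H
  obtain ⟨h, hh, hhe⟩ := rep_hopf H
  have hS : ContinuousOn (fun z => g z ^ 2 / 2) Ω := (hg.pow 2).div_const 2
  have hJ : ContinuousOn (fun z => Real.sqrt ((g z ^ 2 / 2) ^ 2 - 4 * h z ^ 2)) Ω :=
    Real.continuous_sqrt.comp_continuousOn ((hS.pow 2).sub (continuousOn_const.mul (hh.pow 2)))
  refine ⟨g, fun z => Real.sqrt ((g z ^ 2 / 2 + Real.sqrt ((g z ^ 2 / 2) ^ 2 - 4 * h z ^ 2)) / 2),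
    fun z => Real.sqrt ((g z ^ 2 / 2 - Real.sqrt ((g z ^ 2 / 2) ^ 2 - 4 * h z ^ 2)) / 2), hg,
    Real.continuous_sqrt.comp_continuousOn ((hS.add hJ).div_const 2),
    Real.continuous_sqrt.comp_continuousOn ((hS.sub hJ).div_const 2), ?_⟩
  filter_upwards [hge, hhe, H.jac] with z h1 h2 h3
  rw [Dn_eq] at h1
  set P := ‖wz fx fy z‖ with hP
  set Q := ‖wzb fx fy z‖ with hQ
  have hP0 : 0 ≤ P := norm_nonneg _
  have hQ0 : 0 ≤ Q := norm_nonneg _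
  have e1 : g z ^ 2 / 2 = P ^ 2 + Q ^ 2 := by
    rw [h1, Real.sq_sqrt (by positivity)]; ring
  have e2 : (P ^ 2 + Q ^ 2) ^ 2 - 4 * (P * Q) ^ 2 = (P ^ 2 - Q ^ 2) ^ 2 := by ring
  have e3 : Real.sqrt ((g z ^ 2 / 2) ^ 2 - 4 * h z ^ 2) = P ^ 2 - Q ^ 2 := by
    rw [e1, h2, e2, Real.sqrt_sq]
    have : Q ^ 2 ≤ P ^ 2 := by gcongr
    linarith
  refine ⟨h1, ?_, ?_⟩
  · show Real.sqrt ((g z ^ 2 / 2 + Real.sqrt ((g z ^ 2 / 2) ^ 2 - 4 * h z ^ 2)) / 2) = P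
    rw [e3, e1, show (P ^ 2 + Q ^ 2 + (P ^ 2 - Q ^ 2)) / 2 = P ^ 2 by ring, Real.sqrt_sq hP0]
  · show Real.sqrt ((g z ^ 2 / 2 - Real.sqrt ((g z ^ 2 / 2) ^ 2 - 4 * h z ^ 2)) / 2) = Q
    rw [e3, e1, show (P ^ 2 + Q ^ 2 - (P ^ 2 - Q ^ 2)) / 2 = Q ^ 2 by ring, Real.sqrt_sq hQ0]

end Pool.Agent.H.MP_09f213_an.h81
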